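import Mathlib
import Pool.Agent.helper7.IG.Stmt1

/-!
# IG: module PHI3, the modular equation of degree 3 modulo 2
-/

set_option autoImplicit false

open Polynomial

noncomputable section

namespace Pool.Agent.helper7.IG

open Classical in
/-- The indicator function of the odd squares. -/
def phi3_f (n : ℕ) : kk := if ∃ m : ℕ, m % 2 = 1 ∧ m ^ 2 = n then 1 else 0

open Classical in
lemma phi3_DDk : DDk = ps phi3_f := by
  unfold DDk th
  congr 1
  funext n
  unfold phi3_f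
  refine if_congr ?_ rfl rfl
  constructor
  · rintro ⟨m, hm, hm1⟩
    refine ⟨m.natAbs, ?_, ?_⟩
    · have h : m % 2 = 1 := by
        have := hm1
        unfold Int.ModEq at this
        norm_num at this
        exact this
      omega
    · zify
      rw [← hm]
      exact sq_abs m
  · rintro ⟨m, hm, rfl⟩
    refine ⟨m, by push_cast; ring, ?_⟩
    unfold Int.ModEq
    norm_num
    omega

lemma phi3_two : (1 : kk) + 1 = 0 := by
  have h : (2 : kk) = 0 := by
    exact_mod_cast CharP.cast_eq_zero kk 2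
  rw [one_add_one_eq_two, h]

lemma phi3_add_self (a : kk) : a + a = 0 := by
  have h := phi3_two
  have : a + a = a * (1 + 1) := by ring
  rw [this, h, mul_zero]

lemma phi3_f_cases (n : ℕ) : phi3_f n = 0 ∨ phi3_f n = 1 := by
  unfold phi3_f
  split_ifs
  · right; rfl
  · left; rfl

/-- Splitting off the fixed points of the exchange. -/
lemma phi3_anti (f : ℕ → kk) (hf : ∀ n, f n = 0 ∨ f n = 1) (n : ℕ) :
    ∑ p ∈ Finset.HasAntidiagonal.antidiagonal n, f p.1 * f p.2 = if 2 ∣ n then f (n / 2) else 0 := by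
  rw [← Finset.sum_filter_add_sum_filter_not (Finset.HasAntidiagonal.antidiagonal n) (fun p => p.1 = p.2)]
  have h2 : ∑ p ∈ (Finset.HasAntidiagonal.antidiagonal n).filter (fun p => ¬ p.1 = p.2), f p.1 * f p.2 = 0 := by
    refine Finset.sum_involution (fun p _ => (p.2, p.1)) ?_ ?_ ?_ ?_
    · intro p hp
      simp only
      rw [mul_comm (f p.2)]
      exact phi3_add_self _
    · intro p hp _ h
      rw [Finset.mem_filter] at hp
      exact hp.2 (congrArg Prod.snd h)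
    · intro p hp
      rw [Finset.mem_filter, Finset.HasAntidiagonal.mem_antidiagonal] at hp ⊢
      simp only
      exact ⟨by rw [add_comm]; exact hp.1, fun h => hp.2 h.symm⟩
    · intro p hp
      rfl
  rw [h2, add_zero]
  split_ifs with h
  · obtain ⟨k, rfl⟩ := h
    have h3 : (Finset.HasAntidiagonal.antidiagonal (2 * k)).filter (fun p => p.1 = p.2) = {(k, k)} := by
      ext ⟨a, b⟩
      simp only [Finset.mem_filter, Finset.HasAntidiagonal.mem_antidiagonal, Finset.mem_singleton, Prod.mk.injEq]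
      omega
    rw [h3, Finset.sum_singleton, Nat.mul_div_cancel_left k (by norm_num)]
    rcases hf k with h | h <;> simp [h]
  · refine Finset.sum_eq_zero ?_
    rintro ⟨a, b⟩ hp
    simp only [Finset.mem_filter, Finset.HasAntidiagonal.mem_antidiagonal] at hp
    exfalso
    omega

lemma phi3_sq (f : ℕ → kk) (hf : ∀ n, f n = 0 ∨ f n = 1) :
    ps f ^ 2 = ps (fun n => if 2 ∣ n then f (n / 2) else 0) := by
  unfold ps
  rw [← map_pow]
  congr 1
  ext n
  rw [sq, PowerSeries.coeff_mul]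
  simp only [PowerSeries.coeff_mk]
  exact phi3_anti f hf n

lemma phi3_pow4 (f : ℕ → kk) (hf : ∀ n, f n = 0 ∨ f n = 1) :
    ps f ^ 4 = ps (fun n => if 4 ∣ n then f (n / 4) else 0) := by
  have h : ps f ^ 4 = (ps f ^ 2) ^ 2 := by rw [← pow_mul]
  rw [h, phi3_sq f hf, phi3_sq]
  · congr 1
    funext n
    by_cases h2 : 2 ∣ n
    · rw [if_pos h2]
      obtain ⟨k, rfl⟩ := h2
      rw [Nat.mul_div_cancel_left k (by norm_num)]
      by_cases h4 : 2 ∣ k
      · obtain ⟨l, rfl⟩ := h4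
        rw [if_pos (dvd_mul_right 2 l), Nat.mul_div_cancel_left l (by norm_num), if_pos]
        · congr 1
          omega
        · exact ⟨l, by ring⟩
      · rw [if_neg h4, if_neg]
        omega
    · rw [if_neg h2, if_neg]
      omega
  · intro n
    split_ifs
    · exact hf _
    · left; rfl

lemma phi3_sig (f : ℕ → kk) :
    sig 3 1 (ps f) = ps (fun n => if 3 ∣ n then f (n / 3) else 0) := by
  ext n
  rw [sig_coeff (by norm_num), ps_coeff, ps_coeff]
  simp only [one_zpow, Units.val_one, one_mul, Nat.cast_ofNat]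
  by_cases h : (3 : ℤ) ∣ n
  · obtain ⟨k, rfl⟩ := h
    rw [if_pos (dvd_mul_right 3 k), Int.mul_ediv_cancel_left _ (by norm_num)]
    by_cases hk : 0 ≤ k
    · obtain ⟨l, rfl⟩ := Int.eq_ofNat_of_zero_le hk
      rw [if_pos hk, if_pos (by omega)]
      have h1 : ((3 : ℤ) * (l : ℤ)).toNat = 3 * l := by omega
      have h2 : ((l : ℤ)).toNat = l := by omega
      rw [h1, h2, if_pos (dvd_mul_right 3 l), Nat.mul_div_cancel_left l (by norm_num)]
    · rw [if_neg hk, if_neg (by omega)]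
  · rw [if_neg h]
    split_ifs with h1 h2
    · exfalso
      omega
    · rfl
    · rfl

/-- The pairs of odd numbers with `m ^ 2 + 3 n ^ 2 = N`. -/
def phi3_S (N : ℕ) : Finset (ℕ × ℕ) :=
  (Finset.range (N + 1) ×ˢ Finset.range (N + 1)).filter
    (fun p => p.1 % 2 = 1 ∧ p.2 % 2 = 1 ∧ p.1 ^ 2 + 3 * p.2 ^ 2 = N)

lemma phi3_mem_S {N m n : ℕ} :
    (m, n) ∈ phi3_S N ↔ m % 2 = 1 ∧ n % 2 = 1 ∧ m ^ 2 + 3 * n ^ 2 = N := by
  unfold phi3_S
  rw [Finset.mem_filter, Finset.mem_product, Finset.mem_range, Finset.mem_range]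
  simp only
  constructor
  · rintro ⟨_, h⟩
    exact h
  · rintro ⟨h1, h2, h3⟩
    refine ⟨⟨?_, ?_⟩, h1, h2, h3⟩ <;> nlinarith

/-- The involution. -/
def phi3_g (p : ℕ × ℕ) : ℕ × ℕ :=
  if p.1 % 4 = p.2 % 4 then
    (if p.1 < 3 * p.2 then ((3 * p.2 - p.1) / 2, (p.1 + p.2) / 2)
      else ((p.1 - 3 * p.2) / 2, (p.1 + p.2) / 2))
  else
    (if p.2 < p.1 then ((p.1 + 3 * p.2) / 2, (p.1 - p.2) / 2)
      else ((p.1 + 3 * p.2) / 2, (p.2 - p.1) / 2))

lemma phi3_gA1 {m n : ℕ} (h : m % 4 = n % 4) (h' : m < 3 * n) :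
    phi3_g (m, n) = ((3 * n - m) / 2, (m + n) / 2) := by
  unfold phi3_g
  simp only
  rw [if_pos h, if_pos h']

lemma phi3_gA2 {m n : ℕ} (h : m % 4 = n % 4) (h' : ¬ m < 3 * n) :
    phi3_g (m, n) = ((m - 3 * n) / 2, (m + n) / 2) := by
  unfold phi3_g
  simp only
  rw [if_pos h, if_neg h']

lemma phi3_gB1 {m n : ℕ} (h : ¬ m % 4 = n % 4) (h' : n < m) :
    phi3_g (m, n) = ((m + 3 * n) / 2, (m - n) / 2) := by
  unfold phi3_g
  simp only
  rw [if_neg h, if_pos h']

lemma phi3_gB2 {m n : ℕ} (h : ¬ m % 4 = n % 4) (h' : ¬ n < m) :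
    phi3_g (m, n) = ((m + 3 * n) / 2, (n - m) / 2) := by
  unfold phi3_g
  simp only
  rw [if_neg h, if_neg h']

lemma phi3_g_all (m n : ℕ) (hm : m % 2 = 1) (hn : n % 2 = 1) :
    ∃ a b : ℕ, phi3_g (m, n) = (a, b) ∧ a % 2 = 1 ∧ b % 2 = 1 ∧
      a ^ 2 + 3 * b ^ 2 = m ^ 2 + 3 * n ^ 2 ∧ phi3_g (a, b) = (m, n) ∧
      (a = b → m = n) ∧ (a = 3 * b → m = 3 * n) ∧ (m = a → n = b → m = n ∨ m = 3 * n) := by
  by_cases h : m % 4 = n % 4
  · by_cases h' : m < 3 * n
    · refine ⟨_, _, phi3_gA1 h h', ?_⟩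
      obtain ⟨a, ha⟩ : ∃ a, a = (3 * n - m) / 2 := ⟨_, rfl⟩
      obtain ⟨b, hb⟩ : ∃ b, b = (m + n) / 2 := ⟨_, rfl⟩
      rw [← ha, ← hb]
      have e1 : 2 * a + m = 3 * n := by omega
      have e2 : 2 * b = m + n := by omega
      clear ha hb
      have e3 : a + m = b + n := by omega
      have e4 : a % 4 = b % 4 := by omega
      have e5 : a < 3 * b := by omega
      refine ⟨by omega, by omega, ?_, ?_, by omega, by omega, by omega⟩
      · zify
        have f1 : (m : ℤ) = 2 * b - n := by omega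
        have f2 : (a : ℤ) = 2 * n - b := by omega
        rw [f2, f1]; ring
      · rw [phi3_gA1 e4 e5, Prod.mk.injEq]
        constructor <;> omega
    · refine ⟨_, _, phi3_gA2 h h', ?_⟩
      have h'' : 3 * n < m := by omega
      obtain ⟨a, ha⟩ : ∃ a, a = (m - 3 * n) / 2 := ⟨_, rfl⟩
      obtain ⟨b, hb⟩ : ∃ b, b = (m + n) / 2 := ⟨_, rfl⟩
      rw [← ha, ← hb]
      have e1 : 2 * a + 3 * n = m := by omega
      have e2 : 2 * b = m + n := by omega
      clear ha hb
      have e3 : b = a + 2 * n := by omega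
      have e4 : ¬ a % 4 = b % 4 := by omega
      have e5 : ¬ b < a := by omega
      refine ⟨by omega, by omega, ?_, ?_, by omega, by omega, by omega⟩
      · zify
        have f1 : (m : ℤ) = 2 * b - n := by omega
        have f2 : (a : ℤ) = b - 2 * n := by omega
        rw [f2, f1]; ring
      · rw [phi3_gB2 e4 e5, Prod.mk.injEq]
        constructor <;> omega
  · have h0 : (m + n) % 4 = 0 := by omega
    by_cases h' : n < m
    · refine ⟨_, _, phi3_gB1 h h', ?_⟩
      obtain ⟨a, ha⟩ : ∃ a, a = (m + 3 * n) / 2 := ⟨_, rfl⟩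
      obtain ⟨b, hb⟩ : ∃ b, b = (m - n) / 2 := ⟨_, rfl⟩
      rw [← ha, ← hb]
      have e1 : 2 * a = m + 3 * n := by omega
      have e2 : 2 * b + n = m := by omega
      clear ha hb
      have e3 : a = b + 2 * n := by omega
      have e4 : ¬ a % 4 = b % 4 := by omega
      have e5 : b < a := by omega
      refine ⟨by omega, by omega, ?_, ?_, by omega, by omega, by omega⟩
      · zify
        have f1 : (m : ℤ) = 2 * b + n := by omega
        have f2 : (a : ℤ) = b + 2 * n := by omega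
        rw [f2, f1]; ring
      · rw [phi3_gB1 e4 e5, Prod.mk.injEq]
        constructor <;> omega
    · refine ⟨_, _, phi3_gB2 h h', ?_⟩
      have h'' : m < n := by omega
      obtain ⟨a, ha⟩ : ∃ a, a = (m + 3 * n) / 2 := ⟨_, rfl⟩
      obtain ⟨b, hb⟩ : ∃ b, b = (n - m) / 2 := ⟨_, rfl⟩
      rw [← ha, ← hb]
      have e1 : 2 * a = m + 3 * n := by omega
      have e2 : 2 * b + m = n := by omega
      clear ha hb
      have e3 : a = b + m + n := by omega
      have e4 : a % 4 = b % 4 := by omega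
      have e5 : ¬ a < 3 * b := by omega
      refine ⟨by omega, by omega, ?_, ?_, by omega, by omega, by omega⟩
      · zify
        have f1 : (n : ℤ) = 2 * b + m := by omega
        have f2 : (a : ℤ) = 2 * m + 3 * b := by omega
        rw [f2, f1]; ring
      · rw [phi3_gA2 e4 e5, Prod.mk.injEq]
        constructor <;> omega

/-- The sum over the pairs which are not fixed vanishes. -/
lemma phi3_sum_zero (N : ℕ) :
    ∑ p ∈ ((phi3_S N).filter (fun p => ¬ p.1 = p.2)).filter (fun p => ¬ p.1 = 3 * p.2),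
      (1 : kk) = 0 := by
  refine Finset.sum_involution (fun p _ => phi3_g p) ?_ ?_ ?_ ?_
  · intro _ _
    exact phi3_two
  · rintro ⟨m, n⟩ hp _ h
    rw [Finset.mem_filter, Finset.mem_filter, phi3_mem_S] at hp
    obtain ⟨⟨⟨hm, hn, _⟩, hne⟩, hne3⟩ := hp
    obtain ⟨a, b, h1, _, _, _, _, _, _, h2⟩ := phi3_g_all m n hm hn
    simp only at h hne hne3
    rw [h1, Prod.mk.injEq] at h
    rcases h2 h.1.symm h.2.symm with h3 | h3
    · exact hne h3
    · exact hne3 h3
  · rintro ⟨m, n⟩ hp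
    rw [Finset.mem_filter, Finset.mem_filter, phi3_mem_S] at hp
    obtain ⟨⟨⟨hm, hn, hN⟩, hne⟩, hne3⟩ := hp
    obtain ⟨a, b, h1, ha, hb, h2, _, h3, h4, _⟩ := phi3_g_all m n hm hn
    simp only at hne hne3
    rw [h1, Finset.mem_filter, Finset.mem_filter, phi3_mem_S]
    exact ⟨⟨⟨ha, hb, by rw [h2, hN]⟩, fun h => hne (h3 h)⟩, fun h => hne3 (h4 h)⟩
  · rintro ⟨m, n⟩ hp
    rw [Finset.mem_filter, Finset.mem_filter, phi3_mem_S] at hp
    obtain ⟨a, b, h1, _, _, _, h2, _⟩ := phi3_g_all m n hp.1.1.1 hp.1.1.2.1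
    rw [h1, h2]

lemma phi3_sum_fst (N : ℕ) :
    ∑ p ∈ (phi3_S N).filter (fun p => p.1 = p.2), (1 : kk) =
      if 4 ∣ N then phi3_f (N / 4) else 0 := by
  by_cases h : 4 ∣ N
  · rw [if_pos h]
    obtain ⟨k, rfl⟩ := h
    rw [Nat.mul_div_cancel_left k (by norm_num)]
    unfold phi3_f
    split_ifs with h1
    · obtain ⟨m, hm, rfl⟩ := h1
      have h3 : (phi3_S (4 * m ^ 2)).filter (fun p => p.1 = p.2) = {(m, m)} := by
        ext ⟨a, b⟩
        rw [Finset.mem_filter, phi3_mem_S, Finset.mem_singleton, Prod.mk.injEq]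
        simp only
        constructor
        · rintro ⟨⟨ha, hb, hN⟩, rfl⟩
          have h4 : a ^ 2 = m ^ 2 := by omega
          have h5 : a = m := (Nat.pow_left_injective (by norm_num : 2 ≠ 0)) h4
          exact ⟨h5, h5⟩
        · rintro ⟨rfl, rfl⟩
          exact ⟨⟨hm, hm, by ring⟩, rfl⟩
      rw [h3, Finset.sum_singleton]
    · refine Finset.sum_eq_zero ?_
      rintro ⟨a, b⟩ hp
      exfalso
      rw [Finset.mem_filter, phi3_mem_S] at hp
      obtain ⟨⟨ha, hb, hN⟩, h⟩ := hp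
      simp only at h
      subst h
      exact h1 ⟨a, ha, by omega⟩
  · rw [if_neg h]
    refine Finset.sum_eq_zero ?_
    rintro ⟨a, b⟩ hp
    exfalso
    rw [Finset.mem_filter, phi3_mem_S] at hp
    obtain ⟨⟨ha, hb, hN⟩, h'⟩ := hp
    simp only at h'
    subst h'
    exact h ⟨a ^ 2, by omega⟩

lemma phi3_sum_snd (N : ℕ) :
    ∑ p ∈ ((phi3_S N).filter (fun p => ¬ p.1 = p.2)).filter (fun p => p.1 = 3 * p.2), (1 : kk) =
      if 4 ∣ N then (if 3 ∣ N / 4 then phi3_f (N / 4 / 3) else 0) else 0 := by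
  have key : ∀ a b : ℕ, (a, b) ∈ ((phi3_S N).filter (fun p => ¬ p.1 = p.2)).filter
      (fun p => p.1 = 3 * p.2) ↔ b % 2 = 1 ∧ a = 3 * b ∧ 12 * b ^ 2 = N := by
    intro a b
    rw [Finset.mem_filter, Finset.mem_filter, phi3_mem_S]
    simp only
    constructor
    · rintro ⟨⟨⟨ha, hb, hN⟩, _⟩, rfl⟩
      refine ⟨hb, rfl, ?_⟩
      rw [← hN]; ring
    · rintro ⟨hb, rfl, hN⟩
      refine ⟨⟨⟨by omega, hb, ?_⟩, by omega⟩, rfl⟩
      rw [← hN]; ring
  by_cases h : 4 ∣ N ∧ 3 ∣ N / 4 ∧ ∃ m : ℕ, m % 2 = 1 ∧ m ^ 2 = N / 4 / 3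
  · obtain ⟨h1, h2, h3⟩ := h
    rw [if_pos h1, if_pos h2]
    unfold phi3_f
    rw [if_pos h3]
    obtain ⟨m, hm, hmN⟩ := h3
    have h3 : ((phi3_S N).filter (fun p => ¬ p.1 = p.2)).filter (fun p => p.1 = 3 * p.2) =
        {(3 * m, m)} := by
      ext ⟨a, b⟩
      rw [key, Finset.mem_singleton, Prod.mk.injEq]
      constructor
      · rintro ⟨hb, rfl, hN⟩
        have h4 : b ^ 2 = m ^ 2 := by omega
        have h5 : b = m := (Nat.pow_left_injective (by norm_num : 2 ≠ 0)) h4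
        exact ⟨by rw [h5], h5⟩
      · rintro ⟨rfl, rfl⟩
        exact ⟨hm, rfl, by omega⟩
    rw [h3, Finset.sum_singleton]
  · have h5 : (if 4 ∣ N then (if 3 ∣ N / 4 then phi3_f (N / 4 / 3) else 0) else 0) = 0 := by
      unfold phi3_f
      split_ifs with h1 h2 h3
      · exact absurd ⟨h1, h2, h3⟩ h
      · rfl
      · rfl
      · rfl
    rw [h5]
    refine Finset.sum_eq_zero ?_
    rintro ⟨a, b⟩ hp
    exfalso
    rw [key] at hp
    obtain ⟨hb, rfl, hN⟩ := hp
    refine h ⟨⟨3 * b ^ 2, by omega⟩, ⟨b ^ 2, by omega⟩, b, hb, by omega⟩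

lemma phi3_sum_S (N : ℕ) : ∑ p ∈ phi3_S N, (1 : kk) =
    (if 4 ∣ N then phi3_f (N / 4) else 0) +
      (if 4 ∣ N then (if 3 ∣ N / 4 then phi3_f (N / 4 / 3) else 0) else 0) := by
  rw [← Finset.sum_filter_add_sum_filter_not (phi3_S N) (fun p => p.1 = p.2), phi3_sum_fst,
    ← Finset.sum_filter_add_sum_filter_not ((phi3_S N).filter (fun p => ¬ p.1 = p.2))
      (fun p => p.1 = 3 * p.2), phi3_sum_snd, phi3_sum_zero, add_zero]

lemma phi3_prod (N : ℕ) : ∑ p ∈ Finset.HasAntidiagonal.antidiagonal N,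
    phi3_f p.1 * (if 3 ∣ p.2 then phi3_f (p.2 / 3) else 0) = ∑ p ∈ phi3_S N, (1 : kk) := by
  symm
  refine Finset.sum_bij_ne_zero (fun p _ _ => (p.1 ^ 2, 3 * p.2 ^ 2)) ?_ ?_ ?_ ?_
  · rintro ⟨m, n⟩ hp _
    rw [phi3_mem_S] at hp
    rw [Finset.HasAntidiagonal.mem_antidiagonal]
    exact hp.2.2
  · rintro ⟨m, n⟩ hp _ ⟨m', n'⟩ hp' _ h
    simp only [Prod.mk.injEq] at h
    rw [Prod.mk.injEq]
    constructor
    · exact (Nat.pow_left_injective (by norm_num : 2 ≠ 0)) h.1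
    · exact (Nat.pow_left_injective (by norm_num : 2 ≠ 0)) (by
        have := h.2
        simp only
        omega)
  · rintro ⟨i, j⟩ hp hne
    rw [Finset.HasAntidiagonal.mem_antidiagonal] at hp
    simp only at hp hne
    have h1 : phi3_f i ≠ 0 := left_ne_zero_of_mul hne
    have h2 := right_ne_zero_of_mul hne
    have h3 : 3 ∣ j := by
      by_contra h
      rw [if_neg h] at h2
      exact h2 rfl
    rw [if_pos h3] at h2
    unfold phi3_f at h1 h2
    obtain ⟨m, hm, hmi⟩ : ∃ m : ℕ, m % 2 = 1 ∧ m ^ 2 = i := by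
      by_contra h
      rw [if_neg h] at h1
      exact h1 rfl
    obtain ⟨n, hn, hnj⟩ : ∃ m : ℕ, m % 2 = 1 ∧ m ^ 2 = j / 3 := by
      by_contra h
      rw [if_neg h] at h2
      exact h2 rfl
    refine ⟨(m, n), ?_, one_ne_zero, ?_⟩
    · rw [phi3_mem_S]
      refine ⟨hm, hn, ?_⟩
      omega
    · simp only [Prod.mk.injEq]
      exact ⟨hmi, by omega⟩
  · rintro ⟨m, n⟩ hp _
    rw [phi3_mem_S] at hp
    simp only
    unfold phi3_f
    rw [if_pos ⟨m, hp.1, rfl⟩, if_pos (dvd_mul_right 3 _),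
      Nat.mul_div_cancel_left _ (by norm_num), if_pos ⟨n, hp.2.1, rfl⟩, mul_one]

theorem PHI3 : PHI3_stmt := by
  unfold PHI3_stmt
  rw [phi3_DDk, phi3_sig, phi3_pow4 _ phi3_f_cases, phi3_pow4]
  · unfold ps
    rw [← map_add, ← map_mul]
    congr 1
    ext N
    rw [map_add, PowerSeries.coeff_mul]
    simp only [PowerSeries.coeff_mk]
    rw [phi3_prod, phi3_sum_S]
  · intro n
    split_ifs
    · exact phi3_f_cases _
    · left; rfl

end Pool.Agent.helper7.IG
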